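import Pool.Agent.Lib.MP_28303a_al.TT.Rows

/-! # THP: the theorem on groups acting on trees for a property of path groups

Copies of THBI, THBO, REF, THA, FINA, THG (`TW`) with a property `P` of subgroups instead of
regular coherence. -/

set_option autoImplicit false
set_option linter.unusedSectionVars false
set_option linter.unusedVariables false

namespace Pool.Agent.NegK.TT.H53

universe u v w

open Matrix MonoidAlgebra
open Pool.Agent.NegK.TW
open Pool.Agent.NegK.TW.H76 (stab_smul stab_smul_eq stab_chain_one stab_chain_pair transGen_next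
  thR0 thR1 emptyRel part_empty)

/-- THBI with `P`. -/
theorem thbiP {k Γ : Type u} [Ring k] [Group Γ] {P : Subgroup Γ → Prop} (hP : FinOK k Γ P)
    (S : BdSys.{u}) (hS : IsInd S) {hyp : Γ → Prop} {F : Set (Subgroup Γ)} {M₀ : ℕ}
    {ρ : Subgroup Γ → ℕ} (hρ : RankOK P (fun H : Subgroup Γ => NilPoly k H) hyp F M₀ ρ) :
    ∀ (M : ℕ) (D : Type u) [MulAction Γ D] (R : GRel Γ D),
    (∀ (l : ℕ) (c : ℕ → D), (∀ j < l, R.R (c j) (c (j + 1))) → stabChain Γ l c ∈ F) →
    (∀ c : D, ∃ g : Γ, ρ (MulAction.stabilizer Γ (g • c)) ≤ M) →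
    (∀ (c : D) (g : Γ), Relation.TransGen R.R c (g • c) → hyp g) →
    ∀ (J : Type) [Fintype J] [DecidableEq J] (dg : J → D) (μ : Matrix J J (LG k Γ)) (d : ℕ),
    Sup dg dg R.R μ → ChainNil dg μ d → (gdet S k Γ).val (1 - μ) = 0 := by
  intro M
  induction M with
  | zero =>
    intro D _ R hF hM hh J _ _ dg μ d hμ hd
    refine hP.fin S hS D J dg μ d hd fun j => ?_
    obtain ⟨g, hg⟩ := hM (dg j)
    have h1 : MulAction.stabilizer Γ (g • dg j) ∈ F := by
      have := hF 0 (fun _ => g • dg j) (fun j hj => absurd hj (by omega))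
      rwa [stab_chain_one] at this
    have h2 := hP.conj g⁻¹ _ (hρ.coh _ h1 (Nat.le_zero.1 hg))
    rwa [← stab_smul, inv_smul_smul] at h2
  | succ M ih =>
    intro D _ R hF hM hh J _ _ dg μ d hμ hd
    have hF1 : ∀ c : D, MulAction.stabilizer Γ c ∈ F := fun c => by
      have := hF 0 (fun _ => c) (fun j hj => absurd hj (by omega))
      rwa [stab_chain_one] at this
    have hF2 : ∀ a b : D, R.R a b →
        MulAction.stabilizer Γ a ⊓ MulAction.stabilizer Γ b ∈ F := fun a b hab => by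
      have := hF 1 (fun j => if j = 0 then a else b) (fun j hj => by
        have : j = 0 := by omega
        subst this
        simpa using hab)
      rwa [stab_chain_pair] at this
    have hdisj : ∀ a b, (thR0 R ρ).R a b → ¬ (thR1 R ρ).R a b := fun a b h h' => h'.2 h
    have hμ' : Sup dg dg (fun a b => (thR0 R ρ).R a b ∨ (thR1 R ρ).R a b) μ :=
      hμ.mono fun a b h => by
        by_cases h0 : (thR0 R ρ).R a b
        · exact Or.inl h0
        · exact Or.inr ⟨h, h0⟩
    obtain ⟨hd0, J', _, _, dg', μ', h1, h2, h3⟩ :=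
      TW.H76.es (LaurentPolynomial k) Γ D (K0 (MonoidAlgebra k Γ)) (gdet S k Γ) (thR0 R ρ)
        (thR1 R ρ) hdisj J dg μ d hμ' hd
    rw [h3]
    have e1 : (gdet S k Γ).val (1 - part dg dg (thR0 R ρ).R μ) = 0 := by
      refine TW.H19.stat' (LaurentPolynomial k) Γ D (K0 (MonoidAlgebra k Γ)) (gdet S k Γ)
        (thR0 R ρ) (fun a b h => h.2.1) J dg ?_ _ d (sup_part dg dg _ μ) hd0
      rintro m (rfl | ⟨a, b, hab, hst, hm⟩) hnil
      · rw [sub_zero, Det1.val_one]
      · refine TW.H19.lett2' S k Γ D J dg a b m hst hm hnil fun g hg => ?_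
        have hne : ρ (MulAction.stabilizer Γ a) ≠ 0 := by
          obtain ⟨c, hac, -⟩ := Relation.TransGen.head'_iff.1 hab
          have := hac.2.2 1
          rwa [one_smul] at this
        refine hρ.nil _ (hF1 a) hne g (hh a g ?_) ?_
        · rw [hg]
          have hle : ∀ x y, (thR0 R ρ).R x y → R.R x y := fun _ _ h => h.1
          exact Relation.TransGen.mono hle _ _ hab
        · rw [← stab_smul, hg, hst]
    have e2 : (gdet S k Γ).val (1 - μ') = 0 := by
      refine ih (Prs (thR1 R ρ)) (nextRel (thR0 R ρ) (thR1 R ρ)) ?_ ?_ ?_ J' dg' μ' (d + 1) h1 h2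
      · intro l c hc
        obtain ⟨l', c', -, hc', hst⟩ := TW.H76.chex Γ D R (thR0 R ρ) (thR1 R ρ)
          (fun a b h => ⟨h.1, h.2.1⟩) (fun a b h => h.1) l c hc
        rw [← hst]
        exact hF l' c' hc'
      · intro p
        have hpF : ∀ g : Γ, MulAction.stabilizer Γ (g • p) ∈ F := fun g => by
          rw [stab_prs]
          exact hF2 _ _ (R.inv g _ _ p.rel.1)
        -- comparison with a larger stabilizer
        have low : ∀ x : D, MulAction.stabilizer Γ p < MulAction.stabilizer Γ x →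
            ∃ g : Γ, ρ (MulAction.stabilizer Γ (g • p)) ≤ M := by
          intro x hx
          obtain ⟨g, hg⟩ := hM x
          refine ⟨g, ?_⟩
          have hlt : MulAction.stabilizer Γ (g • p) < MulAction.stabilizer Γ (g • x) := by
            rw [stab_smul, stab_smul]
            exact (Subgroup.map_lt_map_iff_of_injective (MulAut.conj g).injective).2 hx
          by_cases h0 : ρ (MulAction.stabilizer Γ (g • x)) = 0
          · have := hρ.mono _ (hpF g) _ (hF1 _) hlt.le
            omega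
          · have := hρ.strict _ (hpF g) _ (hF1 _) hlt h0
            omega
        have hst := stab_prs p
        by_cases hab : MulAction.stabilizer Γ p.fst = MulAction.stabilizer Γ p.snd
        · have hne : ¬ ∀ g : Γ, ρ (MulAction.stabilizer Γ (g • p.fst)) ≠ 0 := fun h =>
            p.rel.2 ⟨p.rel.1, hab, h⟩
          push Not at hne
          obtain ⟨g, hg⟩ := hne
          refine ⟨g, ?_⟩
          have hle : MulAction.stabilizer Γ (g • p) ≤ MulAction.stabilizer Γ (g • p.fst) := by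
            rw [stab_prs]
            exact inf_le_left
          have := hρ.mono _ (hpF g) _ (hF1 _) hle
          omega
        · by_cases hle : MulAction.stabilizer Γ p.fst ≤ MulAction.stabilizer Γ p.snd
          · refine low p.snd ?_
            rw [hst, inf_eq_left.2 hle]
            exact lt_of_le_of_ne hle hab
          · refine low p.fst ?_
            rw [hst]
            refine lt_of_le_of_ne inf_le_left fun h => hle ?_
            exact inf_eq_left.1 h
      · intro p g hpg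
        have := transGen_next (R := R) (R₀ := thR0 R ρ) (R₁ := thR1 R ρ) (fun a b h => h.1)
          (fun a b h => h.1) hpg
        exact hh p.fst g this
    rw [e1, e2, add_zero]

/-- THBO with `P`. -/
theorem thboP {k Γ : Type u} [Ring k] [Group Γ] {P : Subgroup Γ → Prop} (hP : FinOK k Γ P)
    (S : BdSys.{u}) (hS : IsInd S) {hyp : Γ → Prop} {F : Set (Subgroup Γ)} {M₀ : ℕ}
    {ρ : Subgroup Γ → ℕ} (hρ : RankOK P (fun H : Subgroup Γ => NilPoly k H) hyp F M₀ ρ) :
    ∀ (m : ℕ) (D : Type u) [MulAction Γ D] (R : GRel Γ D),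
    (∀ (l : ℕ) (c : ℕ → D), m ≤ l → (∀ j < l, R.R (c j) (c (j + 1))) → stabChain Γ l c ∈ F) →
    (∀ (c : D) (g : Γ), Relation.TransGen R.R c (g • c) → hyp g) →
    ∀ (J : Type) [Fintype J] [DecidableEq J] (dg : J → D) (μ : Matrix J J (LG k Γ)) (d : ℕ),
    Sup dg dg R.R μ → ChainNil dg μ d → (gdet S k Γ).val (1 - μ) = 0 := by
  intro m
  induction m with
  | zero =>
    intro D _ R hF hh J _ _ dg μ d hμ hd
    refine thbiP hP S hS hρ M₀ D R (fun l c hc => hF l c (Nat.zero_le _) hc) ?_ hh J dg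
      μ d hμ hd
    intro c
    refine ⟨1, hρ.le _ ?_⟩
    have h := hF 0 (fun _ => (1 : Γ) • c) le_rfl (fun j hj => absurd hj (by omega))
    rwa [stab_chain_one] at h
  | succ m ih =>
    intro D _ R hF hh J _ _ dg μ d hμ hd
    obtain ⟨hd0, J', _, _, dg', μ', h1, h2, h3⟩ :=
      TW.H76.es (LaurentPolynomial k) Γ D (K0 (MonoidAlgebra k Γ)) (gdet S k Γ) (emptyRel Γ D) R
        (fun a b h => h.elim) J dg μ d (hμ.mono fun a b h => Or.inr h) hd
    rw [h3, part_empty, sub_zero, Det1.val_one, zero_add]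
    refine ih (Prs R) (nextRel (emptyRel Γ D) R) ?_ ?_ J' dg' μ' (d + 1) h1 h2
    · intro l c hl hc
      obtain ⟨l', c', hl', hc', hst⟩ := TW.H76.chex Γ D R (emptyRel Γ D) R
        (fun a b h => h.elim) (fun a b h => h) l c hc
      rw [← hst]
      exact hF l' c' (by omega) hc'
    · intro p g hpg
      refine hh p.fst g ?_
      have step : ∀ p q : Prs R, (nextRel (emptyRel Γ D) R).R p q → R.R p.fst q.fst := by
        intro p q hpq
        have hpq' : Relation.ReflTransGen (emptyRel Γ D).R p.snd q.fst := hpq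
        rcases Relation.ReflTransGen.cases_head hpq' with h | ⟨c, h, -⟩
        · rw [← h]
          exact p.rel
        · exact h.elim
      have key : ∀ q : Prs R, Relation.TransGen (nextRel (emptyRel Γ D) R).R p q →
          Relation.TransGen R.R p.fst q.fst := by
        intro q h
        induction h with
        | single h => exact Relation.TransGen.single (step _ _ h)
        | tail _ h2 ih => exact ih.tail (step _ _ h2)
      exact key _ hpg

/-- The abstract condition with `P` and `Q`. -/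
def AbsC {Γ : Type u} [Group Γ] {𝔻 : Type u} [MulAction Γ 𝔻] (P Q : Subgroup Γ → Prop)
    (PR : GRel Γ 𝔻) : Prop :=
  ∀ (ι : Type) [Finite ι] (ε : ι → 𝔻) (K : ι → Subgroup Γ), (∀ i, (K i).FG) →
    (∀ i, K i ≤ MulAction.stabilizer Γ (ε i)) →
    ∃ (K' : ι → Subgroup Γ) (m M : ℕ) (ρ : Subgroup Γ → ℕ),
      (∀ i, K i ≤ K' i ∧ K' i ≤ MulAction.stabilizer Γ (ε i)) ∧
      RankOK P Q (fun g => ∃ η : 𝔻, Relation.TransGen PR.R η (g • η)) (PathSub PR ε K' m) M ρ

open TW.H65.RefAux in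
/-- REF with `P`. -/
theorem refP {k Γ 𝔻 : Type u} [Ring k] [Group Γ] [MulAction Γ 𝔻] {Q : Subgroup Γ → Prop}
    (hQ : FinOK k Γ Q) (S : BdSys.{u}) (hS : IsInd S) (P : GRel Γ 𝔻) (hP : Levels P)
    (hA : AbsC Q (fun H : Subgroup Γ => NilPoly k H) P) (J : Type) [Fintype J] [DecidableEq J]
    (dg : J → 𝔻) (ν : Matrix J J (LG k Γ)) (hν : Sup dg dg P.R ν) (hu : IsUnit (1 - ν)) :
    (gdet S k Γ).val (1 - ν) = 0 := by
  classical
  obtain ⟨ρ, g, hg, hρ, hρρ⟩ := exists_od (Γ := Γ) dg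
  obtain ⟨d, hd⟩ := TW.H69.chn (LaurentPolynomial k) Γ 𝔻 P hP J dg ν hν hu
  let gen : J → Set Γ := fun i => {x | ∃ j n, n ≤ d ∧ ∃ p ∈ Wd ν j n, ∃ q ∈ Wd ν j n,
    p.1 • dg p.2 = q.1 • dg q.2 ∧ ρ p.2 = i ∧ x = (p.1 * g p.2)⁻¹ * (q.1 * g q.2)}
  have hfin : ∀ i, (gen i).Finite := by
    intro i
    have h4 : (⋃ j : J, ⋃ n ∈ Set.Iic d, ((fun y : (Γ × J) × (Γ × J) =>
        (y.1.1 * g y.1.2)⁻¹ * (y.2.1 * g y.2.2)) '' (Wd ν j n ×ˢ Wd ν j n))).Finite := by
      refine Set.finite_iUnion fun j => Set.Finite.biUnion (Set.finite_Iic d) fun n _ => ?_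
      exact ((TW.H69.wdf _ _ J ν j n).prod (TW.H69.wdf _ _ J ν j n)).image _
    refine h4.subset ?_
    rintro x ⟨j, n, hn, p, hp, q, hq, -, -, rfl⟩
    simp only [Set.mem_iUnion]
    exact ⟨j, n, hn, ⟨p, q⟩, ⟨hp, hq⟩, rfl⟩
  have hρ' : ∀ (p q : Γ × J), p.1 • dg p.2 = q.1 • dg q.2 → ρ p.2 = ρ q.2 := by
    intro p q h
    refine hρ _ _ (q.1⁻¹ * p.1) ?_
    rw [mul_smul, h, inv_smul_smul]
  obtain ⟨K', m, M, rk, hK', hrk⟩ := hA J dg (fun i => Subgroup.closure (gen i))
    (fun i => (Subgroup.fg_iff _).2 ⟨gen i, rfl, hfin i⟩) (by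
      intro i
      rw [Subgroup.closure_le]
      rintro x ⟨j, n, hn, p, hp, q, hq, h, rfl, rfl⟩
      rw [SetLike.mem_coe, MulAction.mem_stabilizer_iff, mul_smul, mul_smul]
      have h4 := hg q.2
      rw [← hρ' p q h] at h4
      rw [h4, ← h, inv_smul_eq_iff, mul_smul, hg])
  have hK : ∀ i, K' i ≤ MulAction.stabilizer Γ (dg i) := fun i => (hK' i).2
  let dg' : J → RD K' := fun l => ⟨ρ l, (g l : Γ ⧸ K' (ρ l))⟩
  have hdg' : ∀ j, pr K' hK (dg' j) = dg j := hg
  let R : GRel Γ (RD K') :=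
    { R := fun c c' => P.R (pr K' hK c) (pr K' hK c')
      inv := by
        intro x c c' h
        rw [pr_smul, pr_smul]
        exact P.inv x _ _ h }
  refine thboP hQ S hS hrk m (RD K') R ?_ ?_ J dg' ν d ?_ ?_
  · intro l c hl hc
    have hex : ∀ j, ∃ x : Γ, c j = ⟨(c j).1, (x : Γ ⧸ K' (c j).1)⟩ := by
      intro j
      obtain ⟨x, hx⟩ := QuotientGroup.mk_surjective (c j).2
      exact ⟨x, by rw [hx]⟩
    choose x hx using hex
    refine ⟨l, hl, fun j => pr K' hK (c j), fun j => (c j).1, x, hc, ?_, ?_⟩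
    · intro j _
      have h4 := congrArg (pr K' hK) (hx j)
      rw [pr_mk] at h4
      exact h4.symm
    · unfold stabChain
      refine iInf_congr fun j => ?_
      conv_lhs => rw [hx j]
      exact stab_mk K' _ _
  · intro c y hy
    refine ⟨pr K' hK c, ?_⟩
    rw [← pr_smul]
    exact Relation.TransGen.lift (pr K' hK) (fun a b h => h) _ _ hy
  · intro i j h hh
    show P.R (pr K' hK (dg' i)) (pr K' hK (h • dg' j))
    rw [pr_smul, hdg', hdg']
    exact hν i j h hh
  · refine hd (RD K') (pr K' hK) dg' (pr_smul K' hK) hdg' ?_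
    intro j n hn p hp q hq h
    show p.1 • (⟨ρ p.2, (g p.2 : Γ ⧸ K' (ρ p.2))⟩ : RD K') =
      q.1 • (⟨ρ q.2, (g q.2 : Γ ⧸ K' (ρ q.2))⟩ : RD K')
    rw [smul_mk, smul_mk]
    refine mk_eq K' (hρ' p q h) _ _ ((hK' _).1 (Subgroup.subset_closure ?_))
    exact ⟨j, n, hn, p, hp, q, hq, h, rfl, rfl⟩

/-- FINA with `P` and `Q`. -/
theorem finaP {Γ V E : Type u} [Group Γ] [MulAction Γ V] [MulAction Γ E] (G : SimpleGraph V)
    (T : OTree Γ V E) (hG : TreeAct Γ G) (hT : T.Of G) {P Q : Subgroup Γ → Prop}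
    (hP : PathCond P Q G) : AbsC P Q T.prev := by
  intro ι _ ε K hfg hK
  obtain ⟨K', m, M, ρ, hK', hr⟩ := hP ι (fun i => T.tgt (ε i)) (fun i => T.src (ε i)) K
    (fun i => TW.H70.adj_tgt_src hT (ε i)) hfg (fun i => by rw [← TW.H70.stab_dt hT]; exact hK i)
  refine ⟨K', m, M, ρ, fun i => ⟨(hK' i).1, by rw [TW.H70.stab_dt hT]; exact (hK' i).2⟩,
    TW.H70.rankOK_mono hr ?_ ?_⟩
  · rintro S ⟨l, hl, η, i, g, hη, hg, rfl⟩
    let v : ℕ → V := fun j => Nat.rec (T.tgt (η 0)) (fun j _ => T.src (η j)) j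
    have hv : ∀ j, v (j + 1) = T.src (η j) := fun j => rfl
    have hv' : ∀ j ≤ l, v j = T.tgt (η j) := by
      intro j hj
      cases j with
      | zero => rfl
      | succ j => rw [hv]; exact (hη j hj).1.symm
    refine ⟨l, hl, v, i, g, fun j hj => ?_, fun j hj => ?_, fun j hj => ⟨?_, ?_⟩, rfl⟩
    · rw [hv, hv' j hj]
      exact TW.H70.adj_tgt_src hT _
    · rw [hv' j hj.le, hv (j + 1)]
      exact TW.H70.not_rev hT (hη j hj)
    · rw [hv' j hj, ← hg j hj, T.tgt_smul]
    · rw [hv, ← hg j hj, T.src_smul]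
  · rintro g ⟨η, hη⟩
    exact TW.H57.hyp TW.H19.lev' Γ V E G T hG hT g η hη

/-- GEO. -/
theorem geo' : GeoStatement.{u} :=
  TW.H19.geo TW.H65.psi (TW.H12.edg TW.H75.ht (TW.H72.grid TW.H89.gconj) TW.H19.gr')
    (TW.H72.lamg TW.H19.lam' TW.H19.nud' TW.H76.rect TW.H19.gr') TW.H19.nus' TW.H19.nud'

/-- THP. -/
theorem thp : ThpStatement.{u} := by
  intro k Γ V _ _ _ G hG hE P hP hN
  obtain ⟨E, _, T, hT⟩ := TW.H19.tre' Γ V G hG
  obtain ⟨b⟩ := hG.tree.connected.nonempty
  obtain ⟨S, hS⟩ := TW.H19.exInd.{u}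
  refine geo' S k Γ V E T b (TW.H12.subt Γ V E G T hG.tree hT b) (fun e => ?_) _
    (fun v => le_iSup (fun v : V => img k (MulAction.stabilizer Γ v)) v)
    fun J _ _ dg ν hν hu => ?_
  · rw [TW.H19.stab_edge T hT e]
    exact hE _ _ (hT.adj e)
  · rw [refP hP S hS T.prev (TW.H19.lev' Γ V E G T hG.tree hT).1 (finaP G T hG hT hN) J dg ν hν
      hu]
    exact AddSubgroup.zero_mem _

end Pool.Agent.NegK.TT.H53
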